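import Pool.Agent.Lib.MP_db02ae_co.Components
import Pool.Agent.Lib.MP_db02ae_co.Lower

/-!
# MP_db02ae_co: `q(n) = Θ(√n)`

`qmin n` is the least positive integer `q` such that each graph `G` on `n` vertices with
fractional domatic number `FD G ≥ 5/2` has a dominating `(5q:2q)`-colouring.
-/

namespace Pool.Agent.Results.MP_db02ae_co.ThetaSqrt

open Pool.Agent.Lib.MP_db02ae_co

theorem exists_pow_between {x : ℝ} (hx : 1 ≤ x) : ∃ j : ℕ, x ≤ (2 : ℝ) ^ j ∧
    (2 : ℝ) ^ j ≤ 2 * x := by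
  have hex : ∃ j : ℕ, x ≤ (2 : ℝ) ^ j := by
    obtain ⟨j, hj⟩ := pow_unbounded_of_one_lt x (by norm_num : (1 : ℝ) < 2)
    exact ⟨j, hj.le⟩
  classical
  refine ⟨Nat.find hex, Nat.find_spec hex, ?_⟩
  rcases Nat.eq_zero_or_pos (Nat.find hex) with h | h
  · rw [h]; simp; linarith
  · obtain ⟨k, hk⟩ := Nat.exists_eq_succ_of_ne_zero h.ne'
    have h1 : ¬ x ≤ (2 : ℝ) ^ k := Nat.find_min hex (by omega)
    push Not at h1
    rw [hk, pow_succ]
    linarith

/-- `q(n) = Θ(√n)`: there are constants `c, K > 0` with `c √n ≤ q(n) ≤ K √n` for all `n ≥ 5`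
(and `q(n)` is well defined: it is the least admissible positive integer). -/
theorem result : ∃ c K : ℝ, 0 < c ∧ 0 < K ∧ ∀ n : ℕ, 5 ≤ n →
    Admissible n (qmin n) ∧ (∀ q, Admissible n q → qmin n ≤ q) ∧
    c * Real.sqrt (n : ℝ) ≤ (qmin n : ℝ) ∧ (qmin n : ℝ) ≤ K * Real.sqrt (n : ℝ) := by
  obtain ⟨Q, hQ, hup⟩ := upper
  have hQ' : (0 : ℝ) < Q := by exact_mod_cast hQ
  refine ⟨1 / 8, 900 * Q, by norm_num, by positivity, ?_⟩
  intro n hn
  have hne : Nonempty (Fin n) := ⟨⟨0, by omega⟩⟩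
  have hn' : (5 : ℝ) ≤ (n : ℝ) := by exact_mod_cast hn
  have hsq : 1 ≤ Real.sqrt (n : ℝ) := by
    rw [Real.one_le_sqrt]; linarith
  have adm : ∀ j : ℕ, 450 * Real.sqrt (n : ℝ) ≤ (2 : ℝ) ^ j → Admissible n (Q * 2 ^ j) := by
    intro j hj
    refine ⟨by positivity, fun G hG => ?_⟩
    exact hup (Fin n) G j (by simpa using hj) (exists_domCol_of_FD G hG)
  obtain ⟨j, hj1, hj2⟩ := exists_pow_between (x := 450 * Real.sqrt (n : ℝ)) (by linarith)
  have hadm := adm j hj1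
  have hmem : Admissible n (qmin n) := Nat.sInf_mem (s := {q : ℕ | Admissible n q}) ⟨_, hadm⟩
  have hle : ∀ q, Admissible n q → qmin n ≤ q := fun q hq => Nat.sInf_le hq
  refine ⟨hmem, hle, ?_, ?_⟩
  · rcases le_or_gt 8 n with h8 | h8
    · obtain ⟨G, hG, hlow⟩ := exists_lower_graph n h8
      have hd : DomCol G (5 * 2 ^ j) (2 * 2 ^ j) :=
        domCol_of_inG hG (by simpa using h8) (by simpa using hj1)
      have hFD := le_FD_of_domCol G (by positivity : 0 < 2 ^ j) hd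
      have h1 := hlow (qmin n) hmem.1 (hmem.2 G hFD)
      have h2 : Real.sqrt (n : ℝ) ≤ 8 * (qmin n : ℝ) := by
        rw [Real.sqrt_le_left (by positivity)]
        nlinarith
      linarith
    · have h1 : (1 : ℝ) ≤ (qmin n : ℝ) := by exact_mod_cast hmem.1
      have h2 : Real.sqrt (n : ℝ) ≤ 8 := by
        rw [Real.sqrt_le_left (by norm_num)]
        have : (n : ℝ) < 8 := by exact_mod_cast h8
        linarith
      linarith
  · have h1 : (qmin n : ℝ) ≤ ((Q * 2 ^ j : ℕ) : ℝ) := by exact_mod_cast hle _ hadm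
    push_cast at h1
    nlinarith

end Pool.Agent.Results.MP_db02ae_co.ThetaSqrt
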